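import Mathlib
import Pool.Agent.MP_602746_gt.FamMain

open scoped Manifold ContDiff Topology

noncomputable section

namespace Pool.Agent.Results.MP_602746_gt.DeformationInvariance

open Pool.Agent.MP_602746_gt

universe u v w z

/-- Let `G` be any Lie group and let `𝓕` be a smooth family, with parameter `t : ℝ`, of structures
on a manifold `M` transversely modelled on `G` acting on itself by left translations; both the
developing maps and the holonomy may vary with `t`. Then the Haefliger structures with trivialised
normal bundle `M × V` defined by the members of the family with parameters `0` and `1` (and a local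
parametrisation `ψ : V → G` with `ψ 0 = 1`) are homotopic. -/
theorem result
    {EG : Type u} [NormedAddCommGroup EG] [NormedSpace ℝ EG] [FiniteDimensional ℝ EG]
    {HG : Type u} [TopologicalSpace HG] {IG : ModelWithCorners ℝ EG HG}
    {G : Type u} [TopologicalSpace G] [ChartedSpace HG G] [Group G] [LieGroup IG ∞ G]
    {V : Type v} [NormedAddCommGroup V] [NormedSpace ℝ V] [FiniteDimensional ℝ V]
    (ψ : PartialDiffeomorph 𝓘(ℝ, V) IG V G ∞) (h0 : (0 : V) ∈ ψ.source) (_ : ψ 0 = 1)
    {EM : Type w} [NormedAddCommGroup EM] [NormedSpace ℝ EM]
    {HM : Type w} [TopologicalSpace HM] {IM : ModelWithCorners ℝ EM HM}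
    {M : Type w} [TopologicalSpace M] [ChartedSpace HM M]
    (𝓕 : LieFamily.{z} IM M IG G) :
    ((𝓕.slice 0).haefliger ψ h0).Homotopic ((𝓕.slice 1).haefliger ψ h0) :=
  family_homotopic 𝓕 ψ h0 ‹_›

end Pool.Agent.Results.MP_602746_gt.DeformationInvariance
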