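import Mathlib
import Pool.Agent.MP_602746_gt.FlatMain

open scoped Manifold ContDiff Topology

noncomputable section

namespace Pool.Agent.Results.MP_602746_gt.FlatAdjointBundle

open Pool.Agent.MP_602746_gt

universe u v w z z'

/-- Let `G` be any Lie group and let `𝓕` be a structure on a manifold `M` transversely modelled on
`G` acting on itself by left translations (for example a `G`-Lie foliation). Let `𝓔` be any smooth
family, with parameter `t : ℝ`, of structures modelled on `GL(EG)`, that is of flat vector bundles
on `M` with fibre the Lie algebra `EG` of `G` and with a trivialisation, whose member with parameter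
`0` agrees with the flat adjoint bundle of `𝓕`. Then the Haefliger structure with trivialised normal
bundle `M × V` defined by `𝓕` (and a local parametrisation `ψ : V → G` with `ψ 0 = 1`) is homotopic,
up to a constant linear change `A` of the trivialisation, to the one given by the zero section of
the flat vector bundle which is the member of `𝓔` with parameter `1`. -/
theorem result
    {EG : Type u} [NormedAddCommGroup EG] [NormedSpace ℝ EG] [FiniteDimensional ℝ EG]
    {HG : Type u} [TopologicalSpace HG] {IG : ModelWithCorners ℝ EG HG}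
    {G : Type u} [TopologicalSpace G] [ChartedSpace HG G] [Group G] [LieGroup IG ∞ G]
    {V : Type v} [NormedAddCommGroup V] [NormedSpace ℝ V] [FiniteDimensional ℝ V]
    (ψ : PartialDiffeomorph 𝓘(ℝ, V) IG V G ∞) (h0 : (0 : V) ∈ ψ.source) (_ : ψ 0 = 1)
    {EM : Type w} [NormedAddCommGroup EM] [NormedSpace ℝ EM]
    {HM : Type w} [TopologicalSpace HM] {IM : ModelWithCorners ℝ EM HM}
    {M : Type w} [TopologicalSpace M] [ChartedSpace HM M]
    (𝓕 : LieStructure.{z} IM M IG G)
    (𝓔 : LieFamily.{z'} IM M 𝓘(ℝ, EG →L[ℝ] EG) (EG →L[ℝ] EG)ˣ)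
    (_ : (𝓔.slice 0).Agrees (𝓕.map (Ad IG G) (contMDiff_Ad IG G))) :
    ∃ A : V ≃L[ℝ] EG, (𝓕.haefliger ψ h0).Homotopic ((𝓔.slice 1).zeroSection.lin A) :=
  flat_main 𝓕 ψ h0 ‹_› 𝓔 ‹_›

end Pool.Agent.Results.MP_602746_gt.FlatAdjointBundle
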