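import Mathlib
import Pool.Agent.MP_602746_gt.FlatMain

open scoped Manifold ContDiff Topology

noncomputable section

namespace Pool.Agent.Results.MP_602746_gt.FlatDeformableToSolvable

open Pool.Agent.MP_602746_gt

universe u u' v w z z'

/-- Let `G` be any Lie group, let `H` be a Lie group with solvable Lie algebra and `dim H ≤ dim G`,
and let `α : H → GL(EG)` be a smooth representation of `H` on the vector space underlying the Lie
algebra of `G`. Let `𝓕` and `𝓗` be structures on a manifold `M` transversely modelled on `G` and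
`H` acting on themselves by left translations. If some smooth family `𝓔`, with parameter `t : ℝ`, of
structures on `M` modelled on `GL(EG)` connects the flat adjoint bundle of `𝓕` with the flat vector
bundle induced by `α` from `𝓗`, then the Haefliger structure with trivialised normal bundle `M × V`
defined by `𝓕` is homotopic to the trivial one. -/
theorem result
    {EG : Type u} [NormedAddCommGroup EG] [NormedSpace ℝ EG] [FiniteDimensional ℝ EG]
    {HG : Type u} [TopologicalSpace HG] {IG : ModelWithCorners ℝ EG HG}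
    {G : Type u} [TopologicalSpace G] [ChartedSpace HG G] [Group G] [LieGroup IG ∞ G]
    {V : Type v} [NormedAddCommGroup V] [NormedSpace ℝ V] [FiniteDimensional ℝ V]
    (ψ : PartialDiffeomorph 𝓘(ℝ, V) IG V G ∞) (h0 : (0 : V) ∈ ψ.source) (_ : ψ 0 = 1)
    {EH : Type u'} [NormedAddCommGroup EH] [NormedSpace ℝ EH] [FiniteDimensional ℝ EH]
    {HH : Type u'} [TopologicalSpace HH] {IH : ModelWithCorners ℝ EH HH}
    {H : Type u'} [TopologicalSpace H] [ChartedSpace HH H] [Group H] [LieGroup IH ∞ H]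
    (_ : LieAlgebra.IsSolvable (GroupLieAlgebra IH H))
    {V' : Type v} [NormedAddCommGroup V'] [NormedSpace ℝ V'] [FiniteDimensional ℝ V']
    (ψH : PartialDiffeomorph 𝓘(ℝ, V') IH V' H ∞) (_ : (0 : V') ∈ ψH.source) (_ : ψH 0 = 1)
    (_ : Module.finrank ℝ EH ≤ Module.finrank ℝ EG)
    (α : H →* (EG →L[ℝ] EG)ˣ) (hα : ContMDiff IH 𝓘(ℝ, EG →L[ℝ] EG) ∞ α)
    {EM : Type w} [NormedAddCommGroup EM] [NormedSpace ℝ EM]
    {HM : Type w} [TopologicalSpace HM] {IM : ModelWithCorners ℝ EM HM}
    {M : Type w} [TopologicalSpace M] [ChartedSpace HM M]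
    (𝓕 : LieStructure.{z} IM M IG G) (𝓗 : LieStructure.{z'} IM M IH H)
    (𝓔 : LieFamily.{z} IM M 𝓘(ℝ, EG →L[ℝ] EG) (EG →L[ℝ] EG)ˣ)
    (_ : (𝓔.slice 0).Agrees (𝓕.map (Ad IG G) (contMDiff_Ad IG G)))
    (_ : (𝓔.slice 1).Agrees (𝓗.map α hα)) :
    (𝓕.haefliger ψ h0).Homotopic (GammaBar.trivial IM M V) :=
  flat_trivial 𝓕 ψ h0 ‹_› ‹_› ψH ‹_› ‹_› ‹_› α hα 𝓗 𝓔 ‹_› ‹_›

end Pool.Agent.Results.MP_602746_gt.FlatDeformableToSolvable
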