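import Mathlib
import Pool.Agent.MP_602746_gt.Final

open scoped Manifold ContDiff Topology

noncomputable section

namespace Pool.Agent.Results.MP_602746_gt.SolvableIsotropy

open Pool.Agent.MP_602746_gt

universe u v w z

/-- Let a Lie group `G` act smoothly on a manifold `X`, let `x₀ ∈ X`, and suppose that the kernel of
the derivative at `1` of the orbit map `g ↦ g • x₀` is a solvable subalgebra `𝔥` of the Lie algebra
of `G`. Let `ψX : U → X` be a local parametrisation with `ψX 0 = x₀` and `ψG : U × W → G` one with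
`ψG 0 = 1` such that the orbit map has, with respect to these, the derivative `(u, w) ↦ u` at `1`.
Then, for every structure `𝓕` on a manifold `M` transversely modelled on `G` acting on itself by
left translations (in particular every `G`-Lie foliation), the Haefliger structure with trivialised
normal bundle `M × (U × W)` defined by `𝓕` and `ψG` is homotopic to the product of the one with
normal bundle `M × U` defined by `𝓕`, the action on `X` and `ψX` with the trivial structure of
codimension `dim W`. -/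
theorem result
    {EG : Type u} [NormedAddCommGroup EG] [NormedSpace ℝ EG] [FiniteDimensional ℝ EG]
    {HG : Type u} [TopologicalSpace HG] {IG : ModelWithCorners ℝ EG HG}
    {G : Type u} [TopologicalSpace G] [ChartedSpace HG G] [Group G] [LieGroup IG ∞ G]
    {EX : Type v} [NormedAddCommGroup EX] [NormedSpace ℝ EX]
    {HX : Type v} [TopologicalSpace HX] {IX : ModelWithCorners ℝ EX HX}
    {X : Type v} [TopologicalSpace X] [ChartedSpace HX X]
    [MulAction G X] [ContMDiffSMul IG IX ∞ G X] (x₀ : X)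
    (𝔥 : LieSubalgebra ℝ (GroupLieAlgebra IG G)) (_ : LieAlgebra.IsSolvable 𝔥)
    (_ : ∀ ξ : GroupLieAlgebra IG G, ξ ∈ 𝔥 ↔ mfderiv IG IX (fun g : G => g • x₀) (1 : G) ξ = 0)
    {U : Type z} [NormedAddCommGroup U] [NormedSpace ℝ U] [FiniteDimensional ℝ U]
    {W : Type z} [NormedAddCommGroup W] [NormedSpace ℝ W] [FiniteDimensional ℝ W]
    (ψX : PartialDiffeomorph 𝓘(ℝ, U) IX U X ∞) (hX : (0 : U) ∈ ψX.source) (_ : ψX 0 = x₀)
    (ψG : PartialDiffeomorph 𝓘(ℝ, U × W) IG (U × W) G ∞) (hG : (0 : U × W) ∈ ψG.source)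
    (_ : ψG 0 = 1)
    (_ : ∀ (u : U) (w : W), (mfderiv 𝓘(ℝ, U × W) IX (fun v => ψG v • x₀) 0 (u, w) : EX) =
      mfderiv 𝓘(ℝ, U) IX ψX 0 u)
    {EM : Type w} [NormedAddCommGroup EM] [NormedSpace ℝ EM]
    {HM : Type w} [TopologicalSpace HM] {IM : ModelWithCorners ℝ EM HM}
    {M : Type w} [TopologicalSpace M] [ChartedSpace HM M]
    (𝓕 : LieStructure IM M IG G) :
    (𝓕.haefliger ψG hG).Homotopic ((𝓕.haefliger ψX hX).stab W) :=
  destabilise x₀ 𝔥 ‹_› ‹_› ψX hX ‹_› ψG hG ‹_› ‹_› 𝓕

end Pool.Agent.Results.MP_602746_gt.SolvableIsotropy
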